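import Mathlib

/-!
Dedekind finiteness is a CLOSED condition in the Wijsman topology on the proper closed
two-sided ideals of a Banach algebra.
-/

namespace Pool.Agent.Results.MP_332c3b_lc.Closed

/-- `Ideal'(A)`: the proper closed two-sided ideals of `A`. -/
def IdealP (A : Type) [NormedRing A] : Type :=
  {K : TwoSidedIdeal A // IsClosed (K : Set A) ∧ K ≠ ⊤}

/-- `d(x,K)`. -/
noncomputable def dist' {A : Type} [NormedRing A] (x : A) (K : IdealP A) : ℝ :=
  Metric.infDist x (K.1 : Set A)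

/-- The Wijsman topology: the weakest topology making every `K ↦ d(x,K)` continuous. -/
noncomputable instance wijsman (A : Type) [NormedRing A] : TopologicalSpace (IdealP A) :=
  ⨅ x : A, TopologicalSpace.induced (dist' x) inferInstance

/-- A unital ring is Dedekind finite if `ab = 1` implies `ba = 1`. -/
def DedekindFinite (B : Type) [Ring B] : Prop := ∀ a b : B, a * b = 1 → b * a = 1

/-- The set of `K` with `A/K` Dedekind finite. -/
def DF (A : Type) [NormedRing A] : Set (IdealP A) :=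
  {K | DedekindFinite K.1.ringCon.Quotient}

/-- `Σ⁰₂` sets: countable unions of closed sets. -/
def IsSigma2 {X : Type} [TopologicalSpace X] (s : Set X) : Prop :=
  ∃ F : ℕ → Set X, (∀ n, IsClosed (F n)) ∧ s = ⋃ n, F n

lemma cont {A : Type} [NormedRing A] (x : A) : Continuous (dist' x : IdealP A → ℝ) :=
  continuous_iInf_dom (i := x) continuous_induced_dom

lemma df_iff {A : Type} [NormedRing A] (K : IdealP A) :
    K ∈ DF A ↔ ∀ a b : A, a * b - 1 ∈ K.1 → b * a - 1 ∈ K.1 := by
  have key : ∀ x y : A, ((x : K.1.ringCon.Quotient) * (y : K.1.ringCon.Quotient) = 1) ↔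
      x * y - 1 ∈ K.1 := by
    intro x y
    rw [← RingCon.coe_mul, ← RingCon.coe_one, RingCon.eq, TwoSidedIdeal.rel_iff]
  constructor
  · intro h a b hab
    exact (key b a).1 (h _ _ ((key a b).2 hab))
  · intro h a b hab
    obtain ⟨a, rfl⟩ := Quotient.exists_rep a
    obtain ⟨b, rfl⟩ := Quotient.exists_rep b
    exact (key b a).2 (h a b ((key a b).1 hab))

lemma estimate {A : Type} [NormedRing A] [CompleteSpace A] (K : IdealP A) (hK : K ∈ DF A)
    (a b : A) (ε : ℝ) (hε : ε ≤ 1 / 2) (h : dist' (a * b - 1) K < ε) :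
    dist' (b * a - 1) K ≤ ‖b‖ * (2 * ε) * ‖a‖ := by
  have hne : (K.1 : Set A).Nonempty := ⟨0, K.1.zero_mem⟩
  obtain ⟨z, hz, hzd⟩ := (Metric.infDist_lt_iff hne).1 h
  set t : A := 1 - (a * b - z) with ht
  have htn : ‖t‖ < ε := by
    rw [dist_eq_norm] at hzd
    have : t = -(a * b - 1 - z) := by rw [ht]; abel
    rw [this, norm_neg]; exact hzd
  have ht1 : ‖t‖ < 1 := by linarith
  set u : Aˣ := Units.oneSub t ht1 with hu
  have huv : (u : A) = a * b - z := by
    rw [hu, Units.val_oneSub, ht]; abel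
  set c : A := ((u⁻¹ : Aˣ) : A) with hc
  have h1 : (a * b - z) * c = 1 := by rw [← huv, hc]; exact u.mul_inv
  have h2 : a * (b * c) - 1 ∈ K.1 := by
    have : a * (b * c) - 1 = z * c := by
      rw [← h1]; noncomm_ring
    rw [this]; exact K.1.mul_mem_right _ _ hz
  have h3 : b * c * a - 1 ∈ K.1 := (df_iff K).1 hK _ _ h2
  have h4 : c - 1 = t + t * (c - 1) := by
    have h5 : (1 - t) * c = 1 := by
      have : 1 - t = a * b - z := by rw [ht]; abel
      rw [this]; exact h1
    have h6 : c - t * c = 1 := by rw [← h5]; noncomm_ring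
    have : t + t * (c - 1) = t * c := by noncomm_ring
    rw [this, ← h6]; abel
  have h7 : ‖c - 1‖ ≤ 2 * ε := by
    have e1 : ‖c - 1‖ ≤ ‖t‖ + ‖t‖ * ‖c - 1‖ := by
      calc ‖c - 1‖ = ‖t + t * (c - 1)‖ := by rw [← h4]
        _ ≤ ‖t‖ + ‖t * (c - 1)‖ := norm_add_le _ _
        _ ≤ ‖t‖ + ‖t‖ * ‖c - 1‖ := by gcongr; exact norm_mul_le _ _
    have e2 : ‖t‖ * ‖c - 1‖ ≤ 1 / 2 * ‖c - 1‖ := by
      gcongr; linarith
    linarith
  have h8 : dist' (b * a - 1) K ≤ dist (b * a - 1) (b * c * a - 1) :=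
    Metric.infDist_le_dist_of_mem h3
  refine h8.trans ?_
  rw [dist_eq_norm]
  have : b * a - 1 - (b * c * a - 1) = -(b * (c - 1) * a) := by noncomm_ring
  rw [this, norm_neg]
  calc ‖b * (c - 1) * a‖ ≤ ‖b * (c - 1)‖ * ‖a‖ := norm_mul_le _ _
    _ ≤ ‖b‖ * ‖c - 1‖ * ‖a‖ := by gcongr; exact norm_mul_le _ _
    _ ≤ ‖b‖ * (2 * ε) * ‖a‖ := by gcongr

theorem closed (A : Type) [NormedRing A] [CompleteSpace A] : IsClosed (DF A) := by
  rw [← isOpen_compl_iff, isOpen_iff_forall_mem_open]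
  intro K hK
  rw [Set.mem_compl_iff, df_iff] at hK
  push Not at hK
  obtain ⟨a, b, hab, hba⟩ := hK
  have hne : (K.1 : Set A).Nonempty := ⟨0, K.1.zero_mem⟩
  set δ := dist' (b * a - 1) K with hδ
  have hδpos : 0 < δ := (K.2.1.notMem_iff_infDist_pos hne).1 hba
  set M := ‖a‖ * ‖b‖ + 1 with hM
  have hMpos : 0 < M := by positivity
  set ε := min (1 / 2) (δ / (4 * M)) with hε
  have hεpos : 0 < ε := lt_min (by norm_num) (by positivity)
  refine ⟨{L | dist' (a * b - 1) L < ε} ∩ {L | δ / 2 < dist' (b * a - 1) L}, ?_, ?_, ?_, ?_⟩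
  · rintro L ⟨h1, h2⟩ hL
    have h3 := estimate L hL a b ε (min_le_left _ _) h1
    have h4 : ε ≤ δ / (4 * M) := min_le_right _ _
    have h5 : ε * (4 * M) ≤ δ := (le_div_iff₀ (by positivity)).1 h4
    have h6 : ‖b‖ * (2 * ε) * ‖a‖ ≤ δ / 2 := by
      have : ‖b‖ * (2 * ε) * ‖a‖ = 2 * ε * (M - 1) := by rw [hM]; ring
      rw [this]; nlinarith
    have h7 : δ / 2 < dist' (b * a - 1) L := h2
    linarith
  · exact (isOpen_lt (cont _) continuous_const).inter (isOpen_lt continuous_const (cont _))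
  · show Metric.infDist _ _ < ε
    rw [Metric.infDist_zero_of_mem hab]; exact hεpos
  · show δ / 2 < δ
    linarith

/-- For every Banach algebra (indeed every complete normed ring) `A`, in particular
`A = ℓ₁(S)`, the set `DF` is closed in the Wijsman topology of `Ideal'(A)`, hence `Σ⁰₂`. -/
theorem result (A : Type) [NormedRing A] [CompleteSpace A] :
    IsClosed (DF A) ∧ IsSigma2 (DF A) :=
  ⟨closed A, fun _ => DF A, fun _ => closed A, (Set.iUnion_const _).symm⟩

end Pool.Agent.Results.MP_332c3b_lc.Closed
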